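import Pool.Agent.Helper82.BT.Count

/-!
# A theory with three similarity classes of countable models and uncountably many countable models
-/

open FirstOrder FirstOrder.Language Cardinal

noncomputable section

namespace Pool.Agent.Results.MP_683aef_lc.ThreeSimilarityClasses

/-- The countable models of `T` (nonempty, with underlying set in the universe `Type`; every
countable model is isomorphic to one of these). -/
abbrev CountableModel {L : FirstOrder.Language.{0, 0}} (T : L.Theory) : Type 1 :=
  {M : Theory.ModelType.{0, 0, 0} T // Countable M}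

/-- `M` and `N` are similar: each elementarily embeds into the other. -/
def Similar {L : FirstOrder.Language.{0, 0}} {T : L.Theory} (M N : CountableModel T) : Prop :=
  Nonempty (M.1 ↪ₑ[L] N.1) ∧ Nonempty (N.1 ↪ₑ[L] M.1)

/-- Similarity, as an equivalence relation. -/
def similarSetoid {L : FirstOrder.Language.{0, 0}} (T : L.Theory) : Setoid (CountableModel T) where
  r := Similar
  iseqv :=
    { refl := fun M => ⟨⟨ElementaryEmbedding.refl L M.1⟩, ⟨ElementaryEmbedding.refl L M.1⟩⟩
      symm := fun h => ⟨h.2, h.1⟩
      trans := fun ⟨⟨f⟩, ⟨f'⟩⟩ ⟨⟨g⟩, ⟨g'⟩⟩ => ⟨⟨g.comp f⟩, ⟨f'.comp g'⟩⟩ }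

/-- Isomorphism, as an equivalence relation. -/
def isoSetoid {L : FirstOrder.Language.{0, 0}} (T : L.Theory) : Setoid (CountableModel T) where
  r M N := Nonempty (M.1 ≃[L] N.1)
  iseqv :=
    { refl := fun M => ⟨Language.Equiv.refl L M.1⟩
      symm := fun ⟨f⟩ => ⟨f.symm⟩
      trans := fun ⟨f⟩ ⟨g⟩ => ⟨g.comp f⟩ }

/-- `B_T(ω)`: the number of similarity classes of countable models of `T`. -/
def numSimilarityClasses {L : FirstOrder.Language.{0, 0}} (T : L.Theory) : Cardinal.{1} :=
  #(Quotient (similarSetoid T))

/-- `I(T, ω)`: the number of countable models of `T` up to isomorphism. -/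
def numCountableModels {L : FirstOrder.Language.{0, 0}} (T : L.Theory) : Cardinal.{1} :=
  #(Quotient (isoSetoid T))

open Pool.Agent.Helper82.BT

/-- The initial data with one point; the point has the property `v` iff `w` holds. -/
def pointI (w : Prop) : Inp where
  P := Unit
  cP := inferInstance
  r := fun _ _ => False
  u := fun _ _ => True
  v := fun _ => w
  rirr := fun _ h => h
  anti := fun _ _ _ => trivial

/-- The empty initial data. -/
def emptyI : Inp where
  P := Empty
  cP := inferInstance
  r := fun _ _ => False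
  u := fun _ _ => True
  v := fun _ => True
  rirr := fun _ h => h
  anti := fun _ _ _ => trivial

/-- The theory. -/
def Th : Lg.Theory := Lg.completeTheory (Gn emptyI)

instance nonempty_gn (I : Inp) : Nonempty (Gn I) := ⟨Gn.inr 0⟩

lemma isComplete_Th : Th.IsComplete := completeTheory.isComplete Lg (Gn emptyI)

lemma good_of_model (M : Type) [Lg.Structure M] (h : M ⊨ Th) : Good M := by
  have h' : M ⊨ Lg.completeTheory (Gn emptyI) := h
  refine (good_gen emptyI).transfer (elementarilyEquivalent_iff.2 fun φ => ?_)
  exact (realize_iff_of_model_completeTheory (Gn emptyI) M φ).symm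

lemma model_of_good (M : Type) [Lg.Structure M] (h : Good M) : M ⊨ Th :=
  ((good_gen emptyI).elementarilyEquivalent h).theory_model
    (T := Lg.completeTheory (Gn emptyI))

lemma infinite_of_good (M : Type) [Lg.Structure M] (h : Good M) : Infinite M := by
  by_contra hcon
  rw [not_infinite_iff_finite] at hcon
  obtain ⟨y, hy⟩ := h.ext' (ι := M) (N := 0) (D := ∅) (E := ∅) (A := ∅) (B := ∅) (t := 0)
    (w := False) le_rfl (x := id)
    ⟨fun i j _ h => h, fun i j _ h => h, fun i j h => h.elim, fun i j _ h => h,
      fun i j _ h => h, fun i _ h => h.elim, fun i _ h => h.elim, fun i h => h.elim,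
      fun i h => h.elim⟩
  exact hy.ne y rfl

/-- A countable generic structure as a countable model. -/
def mk (I : Inp) : CountableModel Th :=
  ⟨@Theory.ModelType.of _ Th (Gn I) _ (model_of_good _ (good_gen I)) _, inferInstanceAs
    (Countable (Gn I))⟩

lemma good_model (M : CountableModel Th) : Good M.1 := good_of_model _ M.1.is_model

/-- There is an element of infinite colour. -/
def P0 (M : CountableModel Th) : Prop := ∃ x : M.1, K x

/-- There is an element of infinite colour without the property `v`. -/
def P1 (M : CountableModel Th) : Prop := ∃ x : M.1, K x ∧ ¬ V x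

lemma P0_of_P1 {M : CountableModel Th} (h : P1 M) : P0 M := by
  obtain ⟨x, hx, -⟩ := h
  exact ⟨x, hx⟩

lemma embeds {M N : CountableModel Th} (h0 : P0 M → P0 N) (h1 : P1 M → P1 N) :
    Nonempty (M.1 ↪ₑ[Lg] N.1) := by
  have hM := good_model M
  have hN := good_model N
  have := M.2
  by_cases hN1 : P1 N
  · obtain ⟨a, ha, hva⟩ := hN1
    exact hM.exists_embedding hN (e := Unit) (fun _ => a) (fun _ => ha)
      (fun _ x _ h => absurd h hva) (fun _ _ => ⟨()⟩)
  · have hv : ∀ x : M.1, K x → V x := by
      intro x hx
      by_contra hvx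
      exact hN1 (h1 ⟨x, hx, hvx⟩)
    by_cases hN0 : P0 N
    · obtain ⟨a, ha⟩ := hN0
      exact hM.exists_embedding hN (e := Unit) (fun _ => a) (fun _ => ha)
        (fun _ x hx _ => hv x hx) (fun _ _ => ⟨()⟩)
    · exact hM.exists_embedding hN (e := Empty) (fun j => j.elim) (fun j => j.elim)
        (fun j => j.elim) (fun x hx => absurd (h0 ⟨x, hx⟩) hN0)

lemma P0_of_embeds {M N : CountableModel Th} (f : M.1 ↪ₑ[Lg] N.1) (h : P0 M) : P0 N := by
  obtain ⟨x, hx⟩ := h
  exact ⟨f x, fun m => (emb_u f m x).2 (hx m)⟩

lemma P1_of_embeds {M N : CountableModel Th} (f : M.1 ↪ₑ[Lg] N.1) (h : P1 M) : P1 N := by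
  obtain ⟨x, hx, hv⟩ := h
  exact ⟨f x, fun m => (emb_u f m x).2 (hx m), fun h => hv ((emb_v f x).1 h)⟩

lemma similar_iff {M N : CountableModel Th} :
    Similar M N ↔ (P0 M ↔ P0 N) ∧ (P1 M ↔ P1 N) := by
  constructor
  · rintro ⟨⟨f⟩, ⟨g⟩⟩
    exact ⟨⟨P0_of_embeds f, P0_of_embeds g⟩, ⟨P1_of_embeds f, P1_of_embeds g⟩⟩
  · rintro ⟨h0, h1⟩
    exact ⟨embeds h0.1 h1.1, embeds h0.2 h1.2⟩

open Classical in
/-- The invariant. -/
def cls (M : CountableModel Th) : Fin 3 := if P1 M then 2 else if P0 M then 1 else 0

lemma cls_eq_iff {M N : CountableModel Th} : Similar M N ↔ cls M = cls N := by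
  rw [similar_iff]
  unfold cls
  have h1 := P0_of_P1 (M := M)
  have h2 := P0_of_P1 (M := N)
  by_cases a : P1 M <;> by_cases b : P1 N <;> by_cases c : P0 M <;> by_cases d : P0 N <;>
    simp_all

lemma cls_surjective : Function.Surjective cls := by
  have key : ∀ (w : Prop) (x : Gn (pointI w)), K x → (w → V x) := by
    intro w x hx hw
    obtain ⟨p, -, h⟩ := above_inl x hx
    exact h (v_inl.2 hw)
  have hK : ∀ w : Prop, K (Gn.inl (I := pointI w) ()) := fun w m => u_inl.2 trivial
  intro i
  fin_cases i
  · refine ⟨mk emptyI, ?_⟩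
    have h0 : ¬ P0 (mk emptyI) := by
      rintro ⟨x, hx⟩
      obtain ⟨p, -⟩ := above_inl (I := emptyI) x hx
      exact p.elim
    have h1 : ¬ P1 (mk emptyI) := fun h => h0 (P0_of_P1 h)
    simp [cls, h0, h1]
  · refine ⟨mk (pointI True), ?_⟩
    have h0 : P0 (mk (pointI True)) := ⟨Gn.inl (I := pointI True) (), hK True⟩
    have h1 : ¬ P1 (mk (pointI True)) := by
      rintro ⟨x, hx, hv⟩
      exact hv (key True x hx trivial)
    simp [cls, h0, h1]
  · refine ⟨mk (pointI False), ?_⟩
    have h1 : P1 (mk (pointI False)) := ⟨Gn.inl (I := pointI False) (), hK False,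
      fun h => (v_inl (I := pointI False)).1 h⟩
    simp [cls, h1]

lemma numSimilarityClasses_Th : numSimilarityClasses Th = 3 := by
  let f : Quotient (similarSetoid Th) → Fin 3 :=
    Quotient.lift cls fun _ _ h => cls_eq_iff.1 h
  have hf : Function.Bijective f := by
    constructor
    · intro a b
      induction a using Quotient.inductionOn
      induction b using Quotient.inductionOn
      intro h
      exact Quotient.sound (cls_eq_iff.2 h)
    · intro i
      obtain ⟨M, hM⟩ := cls_surjective i
      exact ⟨Quotient.mk _ M, hM⟩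
  have h := Cardinal.lift_mk_eq'.2 ⟨_root_.Equiv.ofBijective f hf⟩
  simpa [numSimilarityClasses] using h

lemma numCountableModels_Th : 𝔠 ≤ numCountableModels Th := by
  let f : Set ℕ → Quotient (isoSetoid Th) := fun S => Quotient.mk _ (mk (codeI S))
  have hf : Function.Injective f := by
    intro S S' h
    obtain ⟨e⟩ := Quotient.exact h
    exact iso_code e
  have h := Cardinal.lift_mk_le_lift_mk_of_injective hf
  simpa [numCountableModels] using h

lemma countable_symbols : Countable Lg.Symbols := by
  have h1 : ∀ l, Countable (Lg.Functions l) := fun l => inferInstanceAs (Countable Empty)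
  have h2 : ∀ l, Countable (Lg.Relations l) := by
    intro l
    have : Function.Injective (fun R : Rl l => (match R with
      | .u n => Sum.inl n
      | .v => Sum.inr 0
      | .lt => Sum.inr 1
      | .rr => Sum.inr 2 : ℕ ⊕ ℕ)) := by
      intro R S
      cases R <;> cases S <;> simp
    exact this.countable
  infer_instance

/-- There is a complete theory in a countable language, all of whose models are infinite, with
exactly three similarity classes of countable models (classes for mutual elementary embeddability)
and at least continuum many countable models up to isomorphism. -/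
theorem result :
    ∃ (L : FirstOrder.Language.{0, 0}) (T : L.Theory), Countable L.Symbols ∧ T.IsComplete ∧
      (∀ M : Theory.ModelType.{0, 0, 0} T, Infinite M) ∧
      numSimilarityClasses T = 3 ∧ 𝔠 ≤ numCountableModels T :=
  ⟨Lg, Th, countable_symbols, isComplete_Th,
    fun M => infinite_of_good _ (good_of_model _ M.is_model), numSimilarityClasses_Th,
    numCountableModels_Th⟩

end Pool.Agent.Results.MP_683aef_lc.ThreeSimilarityClasses
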